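import Mathlib

namespace Pool.Agent.Results.MP_fcd74d_nt.InfinitelyMany

open Finset

/-- primes in the dyadic interval (2^i, 2^(i+1)] -/
def PI (i : ℕ) : Finset ℕ := (Ioc (2 ^ i) (2 ^ (i + 1))).filter Nat.Prime

lemma card_PI (i : ℕ) : i * (PI i).card ≤ 2 ^ (i + 1) := by
  have h1 : ∏ p ∈ PI i, p ∣ Nat.choose (2 * 2 ^ i) (2 ^ i) := by
    apply Finset.prod_primes_dvd
    · intro p hp
      exact (Finset.mem_filter.1 hp).2.prime
    · intro p hp
      obtain ⟨hp1, hp2⟩ := Finset.mem_filter.1 hp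
      obtain ⟨hl, hu⟩ := Finset.mem_Ioc.1 hp1
      have : 2 ^ (i + 1) = 2 * 2 ^ i := by ring
      apply hp2.dvd_choose hl
      · omega
      · omega
  have hpos : 0 < Nat.choose (2 * 2 ^ i) (2 ^ i) := Nat.choose_pos (by omega)
  have h2 : ∏ p ∈ PI i, p ≤ 2 ^ (2 * 2 ^ i) :=
    (Nat.le_of_dvd hpos h1).trans (Nat.choose_le_two_pow _ _)
  have h3 : (2 ^ i) ^ (PI i).card ≤ ∏ p ∈ PI i, p := by
    apply Finset.pow_card_le_prod
    intro p hp
    exact (Finset.mem_Ioc.1 (Finset.mem_filter.1 hp).1).1.le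
  have h4 : 2 ^ (i * (PI i).card) ≤ 2 ^ (2 * 2 ^ i) := by
    rw [pow_mul]
    exact h3.trans h2
  have h5 := (Nat.pow_le_pow_iff_right (by norm_num : 1 < 2)).1 h4
  calc i * (PI i).card ≤ 2 * 2 ^ i := h5
    _ = 2 ^ (i + 1) := by ring

/-- odd primorial -/
def OP (y : ℕ) : ℕ := ∏ p ∈ (Icc 3 y).filter Nat.Prime, p

lemma OP_le (y : ℕ) : OP y ≤ 4 ^ y := by
  refine le_trans ?_ (primorial_le_four_pow y)
  unfold OP primorial
  apply Finset.prod_le_prod_of_subset_of_one_le'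
  · intro p hp
    simp only [Finset.mem_filter, Finset.mem_Icc, Finset.mem_range] at hp ⊢
    exact ⟨by omega, hp.2⟩
  · intro p hp _
    exact (Finset.mem_filter.1 hp).2.one_lt.le

lemma OP_pos (y : ℕ) : 0 < OP y := by
  apply Finset.prod_pos
  intro p hp
  exact (Finset.mem_filter.1 hp).2.pos

lemma dvd_OP {p y : ℕ} (hp : p.Prime) (h2 : p ≠ 2) (hy : p ≤ y) : p ∣ OP y := by
  apply Finset.dvd_prod_of_mem (fun p => p)
  have := hp.two_le
  simp only [Finset.mem_filter, Finset.mem_Icc]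
  exact ⟨by omega, hp⟩

lemma OP_odd (y : ℕ) : ¬ 2 ∣ OP y := by
  intro h
  obtain ⟨p, hp, h2⟩ := (Nat.prime_two.prime.dvd_finsetProd_iff _).1 h
  simp only [Finset.mem_filter, Finset.mem_Icc] at hp
  have := (Nat.prime_dvd_prime_iff_eq Nat.prime_two hp.2).1 h2
  omega

lemma coprime_OP {p y : ℕ} (hp : p.Prime) (hy : y < p) : Nat.Coprime (OP y) p := by
  apply Nat.Coprime.prod_left
  intro q hq
  simp only [Finset.mem_filter, Finset.mem_Icc] at hq
  rw [Nat.coprime_primes hq.2 hp]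
  omega

/-- number of j < J with a j + b = c mod m, a coprime to m -/
lemma count_le (J m : ℕ) (hm : 0 < m) (S : Finset ℕ) (hS : ∀ j ∈ S, j < J)
    (hmod : ∀ i ∈ S, ∀ j ∈ S, i ≡ j [MOD m]) : (S.card : ℝ) ≤ (J : ℝ) / m + 1 := by
  rcases S.eq_empty_or_nonempty with h | ⟨a, ha⟩
  · subst h
    simp only [Finset.card_empty, Nat.cast_zero]
    positivity
  · have h1 : S ⊆ (Finset.range J).filter (fun j => j ≡ a [MOD m]) := by
      intro j hj
      simp only [Finset.mem_filter, Finset.mem_range]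
      exact ⟨hS j hj, hmod j hj a ha⟩
    have h2 : ((Finset.range J).filter (fun j => j ≡ a [MOD m])).card ≤ J / m + 1 := by
      have := Nat.count_modEq_card (r := m) J hm a
      rw [← Nat.count_eq_card_filter_range]
      rw [this]
      split_ifs <;> omega
    have h3 : (S.card : ℝ) ≤ ((J / m + 1 : ℕ) : ℝ) := by
      exact_mod_cast (Finset.card_le_card h1).trans h2
    have h4 : ((J / m : ℕ) : ℝ) ≤ (J : ℝ) / m := Nat.cast_div_le
    push_cast at h3
    linarith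

/-- the indices j for which p^2 divides P (2 j + 1) - 2^k -/
def bad (P J k p : ℕ) : Finset ℕ :=
  (range J).filter (fun j => 2 ^ k < P * (2 * j + 1) ∧ p ^ 2 ∣ P * (2 * j + 1) - 2 ^ k)

lemma card_bad (P J k p : ℕ) (hp : p.Prime) (h2 : p ≠ 2) (hP : Nat.Coprime P p) :
    ((bad P J k p).card : ℝ) ≤ (J : ℝ) / (p : ℝ) ^ 2 + 1 := by
  have := count_le J (p ^ 2) (by have := hp.pos; positivity) (bad P J k p)
    (by
      intro j hj
      exact Finset.mem_range.1 (Finset.mem_filter.1 hj).1)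
    (by
      intro i hi j hj
      obtain ⟨-, hi1, hi2⟩ := Finset.mem_filter.1 hi
      obtain ⟨-, hj1, hj2⟩ := Finset.mem_filter.1 hj
      have e1 : 2 ^ k ≡ P * (2 * i + 1) [MOD p ^ 2] := (Nat.modEq_iff_dvd' hi1.le).2 hi2
      have e2 : 2 ^ k ≡ P * (2 * j + 1) [MOD p ^ 2] := (Nat.modEq_iff_dvd' hj1.le).2 hj2
      have e3 : P * (2 * i + 1) ≡ P * (2 * j + 1) [MOD p ^ 2] := e1.symm.trans e2
      have c1 : Nat.gcd (p ^ 2) P = 1 := (Nat.Coprime.pow_right 2 hP).symm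
      have c2 : Nat.gcd (p ^ 2) 2 = 1 := by
        apply Nat.Coprime.pow_left
        rw [Nat.coprime_primes hp Nat.prime_two]
        exact h2
      have e4 := Nat.ModEq.cancel_left_of_coprime c1 e3
      have e5 : 2 * i ≡ 2 * j [MOD p ^ 2] := Nat.ModEq.add_right_cancel' 1 e4
      exact Nat.ModEq.cancel_left_of_coprime c2 e5)
  push_cast at this
  exact this

lemma geom (s t : ℕ) : ∑ i ∈ Ico s t, (1 / 2 : ℝ) ^ i ≤ 2 * (1 / 2 : ℝ) ^ s := by
  rcases le_total s t with h | h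
  · rw [geom_sum_Ico (by norm_num) h]
    have : 0 ≤ (1 / 2 : ℝ) ^ t := by positivity
    have e : ((1 / 2 : ℝ) ^ t - (1 / 2) ^ s) / (1 / 2 - 1) = 2 * (1 / 2) ^ s - 2 * (1 / 2) ^ t := by
      ring
    rw [e]
    linarith
  · rw [Finset.Ico_eq_empty_of_le h]
    simp only [Finset.sum_empty]
    positivity

lemma geom2 (s t : ℕ) : ∑ i ∈ Ico s t, (2 : ℝ) ^ (i + 1) ≤ 2 * (2 : ℝ) ^ t := by
  rcases le_total s t with h | h
  · have : ∑ i ∈ Ico s t, (2 : ℝ) ^ (i + 1) = 2 * ∑ i ∈ Ico s t, (2 : ℝ) ^ i := by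
      rw [Finset.mul_sum]
      apply Finset.sum_congr rfl
      intro i _
      ring
    rw [this, geom_sum_Ico (by norm_num) h]
    have : 0 ≤ (2 : ℝ) ^ s := by positivity
    have e : ((2 : ℝ) ^ t - 2 ^ s) / (2 - 1) = 2 ^ t - 2 ^ s := by ring
    rw [e]
    linarith
  · rw [Finset.Ico_eq_empty_of_le h]
    simp only [Finset.sum_empty]
    positivity

lemma key (s : ℕ) (hs : 128 ≤ s) :
    ∃ j < 2 ^ (5 * 2 ^ s), ∀ k < 8 * 2 ^ s, ∀ p : ℕ, p.Prime → 2 ^ s < p → p ≤ 2 ^ (4 * 2 ^ s) →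
      2 ^ k < OP (2 ^ s) * (2 * j + 1) → ¬ p ^ 2 ∣ OP (2 ^ s) * (2 * j + 1) - 2 ^ k := by
  set y : ℕ := 2 ^ s with hy
  set J : ℕ := 2 ^ (5 * y) with hJ
  set P : ℕ := OP y with hP
  have hys : s + 6 ≤ y := by
    have h1 : s + 6 ≤ 2 ^ s := by
      clear_value y J P
      clear hy
      induction s, hs using Nat.le_induction with
      | base => norm_num
      | succ n hn ih =>
        rw [pow_succ]
        omega
    exact h1
  let B : Finset ℕ := (range (8 * y)).biUnion fun k => (Ico s (4 * y)).biUnion fun i =>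
    (PI i).biUnion fun p => bad P J k p
  have hs0 : (0 : ℝ) < s := by
    have : 0 < s := by omega
    exact_mod_cast this
  have hJ0 : (0 : ℝ) < J := by positivity
  -- bound for one i
  have hone : ∀ k, ∀ i ∈ Ico s (4 * y), (∑ p ∈ PI i, ((bad P J k p).card : ℝ)) ≤
      (2 * J / s) * (1 / 2 : ℝ) ^ i + 2 ^ (i + 1) := by
    intro k i hi
    obtain ⟨hi1, hi2⟩ := Finset.mem_Ico.1 hi
    have hi0 : (0 : ℝ) < i := by
      have : 0 < i := by omega
      exact_mod_cast this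
    have h1 : ∀ p ∈ PI i, ((bad P J k p).card : ℝ) ≤ (J : ℝ) / 4 ^ i + 1 := by
      intro p hp
      obtain ⟨hp1, hp2⟩ := Finset.mem_filter.1 hp
      obtain ⟨hl, hu⟩ := Finset.mem_Ioc.1 hp1
      have hyp : y < p := lt_of_le_of_lt (Nat.pow_le_pow_right (by norm_num) hi1) hl
      have h2p : p ≠ 2 := by
        have : 2 ≤ y := by omega
        omega
      refine (card_bad P J k p hp2 h2p (coprime_OP hp2 hyp)).trans ?_
      have h4 : (4 : ℝ) ^ i ≤ (p : ℝ) ^ 2 := by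
        have : (4 : ℝ) ^ i = ((2 : ℝ) ^ i) ^ 2 := by
          rw [← pow_mul, mul_comm, pow_mul]; norm_num
        rw [this]
        have h5 : (2 : ℝ) ^ i ≤ p := by exact_mod_cast hl.le
        gcongr
      gcongr
    have hc := card_PI i
    have hc1 : ((PI i).card : ℝ) ≤ 2 ^ (i + 1) / i := by
      rw [le_div_iff₀ hi0]
      have : ((i * (PI i).card : ℕ) : ℝ) ≤ ((2 ^ (i + 1) : ℕ) : ℝ) := by exact_mod_cast hc
      push_cast at this
      linarith
    have his : (s : ℝ) ≤ i := by exact_mod_cast hi1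
    have h1s : (1 : ℝ) ≤ i := by
      have : 1 ≤ i := by omega
      exact_mod_cast this
    calc ∑ p ∈ PI i, ((bad P J k p).card : ℝ)
        ≤ ∑ p ∈ PI i, ((J : ℝ) / 4 ^ i + 1) := Finset.sum_le_sum h1
      _ = (PI i).card * ((J : ℝ) / 4 ^ i + 1) := by rw [Finset.sum_const, nsmul_eq_mul]
      _ = (PI i).card * ((J : ℝ) / 4 ^ i) + (PI i).card := by ring
      _ ≤ (2 ^ (i + 1) / s) * ((J : ℝ) / 4 ^ i) + 2 ^ (i + 1) := by
          have a1 : ((PI i).card : ℝ) ≤ 2 ^ (i + 1) / s := hc1.trans (by gcongr)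
          have a2 : ((PI i).card : ℝ) ≤ 2 ^ (i + 1) :=
            hc1.trans (div_le_self (by positivity) h1s)
          gcongr
      _ = (2 * J / s) * (1 / 2 : ℝ) ^ i + 2 ^ (i + 1) := by
          have : (4 : ℝ) ^ i = 2 ^ i * 2 ^ i := by rw [← mul_pow]; norm_num
          rw [this, one_div, inv_pow]
          have : (2 : ℝ) ^ i ≠ 0 := by positivity
          field_simp
          ring
  have htwo : ∀ k, (∑ i ∈ Ico s (4 * y), ∑ p ∈ PI i, ((bad P J k p).card : ℝ)) ≤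
      (2 * J / s) * (2 * (1 / 2 : ℝ) ^ s) + 2 * 2 ^ (4 * y) := by
    intro k
    calc (∑ i ∈ Ico s (4 * y), ∑ p ∈ PI i, ((bad P J k p).card : ℝ))
        ≤ ∑ i ∈ Ico s (4 * y), ((2 * J / s) * (1 / 2 : ℝ) ^ i + 2 ^ (i + 1)) :=
          Finset.sum_le_sum (hone k)
      _ = (2 * J / s) * (∑ i ∈ Ico s (4 * y), (1 / 2 : ℝ) ^ i) +
            ∑ i ∈ Ico s (4 * y), (2 : ℝ) ^ (i + 1) := by
          rw [Finset.sum_add_distrib, ← Finset.mul_sum]
      _ ≤ _ := by
          have := geom s (4 * y)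
          have := geom2 s (4 * y)
          gcongr
  have hB : (B.card : ℝ) ≤ (8 * y : ℕ) *
      ((2 * J / s) * (2 * (1 / 2 : ℝ) ^ s) + 2 * 2 ^ (4 * y)) := by
    calc (B.card : ℝ) ≤ ((∑ k ∈ range (8 * y), ∑ i ∈ Ico s (4 * y), ∑ p ∈ PI i,
          (bad P J k p).card : ℕ) : ℝ) := by
          apply Nat.cast_le.2
          refine Finset.card_biUnion_le.trans (Finset.sum_le_sum fun k _ => ?_)
          refine Finset.card_biUnion_le.trans (Finset.sum_le_sum fun i _ => ?_)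
          exact Finset.card_biUnion_le
      _ = ∑ k ∈ range (8 * y), ∑ i ∈ Ico s (4 * y), ∑ p ∈ PI i, ((bad P J k p).card : ℝ) := by
          push_cast; rfl
      _ ≤ ∑ k ∈ range (8 * y), ((2 * J / s) * (2 * (1 / 2 : ℝ) ^ s) + 2 * 2 ^ (4 * y)) :=
          Finset.sum_le_sum fun k _ => htwo k
      _ = _ := by rw [Finset.sum_const, nsmul_eq_mul, Finset.card_range]
  have hlt : B.card < J := by
    have h1 : ((8 * y : ℕ) : ℝ) * ((2 * J / s) * (2 * (1 / 2 : ℝ) ^ s) + 2 * 2 ^ (4 * y)) =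
        32 * J / s + 16 * y * 2 ^ (4 * y) := by
      have : (y : ℝ) * (1 / 2 : ℝ) ^ s = 1 := by
        rw [hy]; push_cast; rw [← mul_pow]; norm_num
      push_cast
      calc (8 * (y : ℝ)) * ((2 * J / s) * (2 * (1 / 2 : ℝ) ^ s) + 2 * 2 ^ (4 * y)) =
          32 * J / s * (y * (1 / 2 : ℝ) ^ s) + 16 * y * 2 ^ (4 * y) := by ring
        _ = _ := by rw [this]; ring
    have h2 : 32 * (J : ℝ) / s ≤ J / 4 := by
      have : (128 : ℝ) ≤ s := by exact_mod_cast hs
      rw [div_le_div_iff₀ hs0 (by norm_num)]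
      nlinarith
    have h3 : 16 * (y : ℝ) * 2 ^ (4 * y) ≤ J / 4 := by
      have : 4 * (16 * y * 2 ^ (4 * y)) ≤ J := by
        calc 4 * (16 * y * 2 ^ (4 * y)) = 2 ^ (s + 6 + 4 * y) := by
              rw [pow_add, pow_add, ← hy]; ring
          _ ≤ 2 ^ (5 * y) := Nat.pow_le_pow_right (by norm_num) (by omega)
      have h' : ((4 * (16 * y * 2 ^ (4 * y)) : ℕ) : ℝ) ≤ J := by exact_mod_cast this
      push_cast at h'
      linarith
    have h4 : (B.card : ℝ) < J := by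
      rw [h1] at hB
      linarith
    exact_mod_cast h4
  obtain ⟨j, hj1, hj2⟩ : ∃ j ∈ range J, j ∉ B := by
    by_contra hcon
    push Not at hcon
    have : (range J) ⊆ B := hcon
    have := Finset.card_le_card this
    rw [Finset.card_range] at this
    omega
  refine ⟨j, Finset.mem_range.1 hj1, ?_⟩
  intro k hk p hp hyp hpu hlt2 hdvd
  apply hj2
  -- find i
  set i := Nat.log 2 (p - 1) with hi
  have hp1 : 1 ≤ p - 1 := by
    have : 1 ≤ y := Nat.one_le_two_pow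
    omega
  have hi1 : 2 ^ i ≤ p - 1 := Nat.pow_log_le_self 2 (by omega)
  have hi2 : p - 1 < 2 ^ (i + 1) := Nat.lt_pow_succ_log_self (by norm_num) _
  have hsi : s ≤ i := by
    have : 2 ^ s < 2 ^ (i + 1) := by omega
    have := (Nat.pow_lt_pow_iff_right (by norm_num : 1 < 2)).1 this
    omega
  have hi4 : i < 4 * y := by
    have : 2 ^ i < 2 ^ (4 * y) := by omega
    exact (Nat.pow_lt_pow_iff_right (by norm_num : 1 < 2)).1 this
  simp only [B, Finset.mem_biUnion]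
  refine ⟨k, Finset.mem_range.2 hk, i, Finset.mem_Ico.2 ⟨hsi, hi4⟩, p, ?_, ?_⟩
  · simp only [PI, Finset.mem_filter, Finset.mem_Ioc]
    exact ⟨by omega, hp⟩
  · simp only [bad, Finset.mem_filter]
    exact ⟨hj1, hlt2, hdvd⟩

/-- There are infinitely many integers `n` such that `n - 2^k` is squarefree for every `k ≥ 1`
with `2^k < n`. -/
theorem result :
    {n : ℕ | 3 ≤ n ∧ ∀ k : ℕ, 1 ≤ k → 2 ^ k < n → Squarefree (n - 2 ^ k)}.Infinite := by
  apply Set.infinite_of_forall_exists_gt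
  intro N
  obtain ⟨q, hqN, hq⟩ := Nat.exists_infinite_primes (N + 4)
  set s := max 128 q with hs
  have hs1 : 128 ≤ s := le_max_left _ _
  have hs2 : q ≤ s := le_max_right _ _
  obtain ⟨j, hj, hkey⟩ := key s hs1
  set y : ℕ := 2 ^ s with hy
  set P : ℕ := OP y with hP
  have hsy : s < y := Nat.lt_two_pow_self
  have hqP : q ∣ P := dvd_OP hq (by omega) (by omega)
  have hP0 : 0 < P := OP_pos y
  have hqle : q ≤ P := Nat.le_of_dvd hP0 hqP
  set n := P * (2 * j + 1) with hn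
  have hPn : P ≤ n := by
    rw [hn]
    exact Nat.le_mul_of_pos_right P (by omega)
  have hnlt : n < 2 ^ (8 * y) := by
    have h1 : P ≤ 4 ^ y := OP_le y
    have h2 : 2 * j + 1 < 2 * 2 ^ (5 * y) := by omega
    calc n < 4 ^ y * (2 * 2 ^ (5 * y)) := by
          rw [hn]
          exact Nat.mul_lt_mul_of_le_of_lt h1 h2 (by positivity)
      _ = 2 ^ (2 * y + (1 + 5 * y)) := by
          have h4 : 4 ^ y = 2 ^ (2 * y) := by rw [pow_mul]; norm_num
          rw [pow_add, pow_add, h4, pow_one]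
      _ ≤ 2 ^ (8 * y) := Nat.pow_le_pow_right (by norm_num) (by omega)
  refine ⟨n, ⟨by omega, ?_⟩, by omega⟩
  intro k hk1 hkn
  have hk8 : k < 8 * y := by
    have : 2 ^ k < 2 ^ (8 * y) := hkn.trans hnlt
    exact (Nat.pow_lt_pow_iff_right (by norm_num : 1 < 2)).1 this
  rw [Nat.squarefree_iff_prime_squarefree]
  intro p hp hdvd
  have hdvd2 : p ^ 2 ∣ n - 2 ^ k := by rw [sq]; exact hdvd
  have hpd : p ∣ n - 2 ^ k := dvd_trans (dvd_mul_right p p) hdvd
  have hpos : 0 < n - 2 ^ k := Nat.sub_pos_of_lt hkn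
  by_cases hp2 : p = 2
  · subst hp2
    have h2k : 2 ∣ 2 ^ k := dvd_pow_self 2 (by omega)
    have h2n : 2 ∣ n := by
      have := (Nat.dvd_add_right h2k).2 hpd
      rwa [Nat.add_sub_cancel' hkn.le] at this
    rw [hn] at h2n
    rcases (Nat.Prime.dvd_mul Nat.prime_two).1 h2n with h | h
    · exact OP_odd y h
    · omega
  · by_cases hpy : p ≤ y
    · have hpP : p ∣ P := dvd_OP hp hp2 hpy
      have hpn : p ∣ n := dvd_mul_of_dvd_left hpP _
      have h2 : p ∣ 2 ^ k := by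
        have h3 : p ∣ n - (n - 2 ^ k) := Nat.dvd_sub hpn hpd
        rwa [Nat.sub_sub_self hkn.le] at h3
      have := (Nat.prime_dvd_prime_iff_eq hp Nat.prime_two).1 (hp.dvd_of_dvd_pow h2)
      exact hp2 this
    · push Not at hpy
      have hple : p ≤ 2 ^ (4 * y) := by
        by_contra hcon
        push Not at hcon
        have h1 : p ^ 2 ≤ n - 2 ^ k := Nat.le_of_dvd hpos hdvd2
        have h2 : (2 ^ (4 * y)) ^ 2 < p ^ 2 := Nat.pow_lt_pow_left hcon (by norm_num)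
        have h3 : (2 ^ (4 * y)) ^ 2 = 2 ^ (8 * y) := by rw [← pow_mul]; congr 1; ring
        have h4 : (2 ^ (4 * y)) ^ 2 < n := lt_of_lt_of_le h2 (h1.trans (Nat.sub_le _ _))
        rw [h3] at h4
        exact absurd h4 (not_lt.2 hnlt.le)
      exact hkey k hk8 p hp hpy hple hkn hdvd2

end Pool.Agent.Results.MP_fcd74d_nt.InfinitelyMany
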